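import Pool.Agent.H330.P2.All

/-!
# MP_971469_al: `P_2(PSp_{2m}(q)) ≤ 6/m` for all odd `m ≥ 3` and all odd `q`

Let `q` be odd and `m ≥ 3` odd.  We prove that for every `s ∈ G = PSp_{2m}(q)` the proportion
`P(G, s, 2)` of the pairs in `s^G × s^G` which form a uniform dominating set is at most `6/m`.
So `P_2(G) ≤ 6/m`, which tends to `0` for `m → ∞`.  By our result on MP_65787c_al and the theorem of
Bereczky on the maximal overgroups of Singer cycles quoted there, `γ_u(G) = 2` for all odd
`m ≥ 5` and all odd `q`.  So there is no absolute lower bound for `P_2(G)`.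

Proof.  If `{s^a, s^b}` is a total dominating set, then (a lift of) `s` is irreducible, so
it commutes with some skew-adjoint `J` with `J² = ν`, `ν ∈ F_q` a nonsquare (here `m` is odd), and no
isometry except `±1` commutes with `J^a` and `J^b`.  The pairs `(J, J')` of
such square roots of `ν` are parametrised, up to a factor which is the same for all of them, by the
characteristic polynomials of degree `m` of `Z = JJ' + J'J` (on half of the space); almost every
polynomial occurs, and if no isometry except `±1` commutes with `J` and `J'`, then the polynomial is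
a power of an irreducible one, which has probability about `1/m`.
-/

namespace Pool.Agent.Results.MP_971469_al.OddSymplectic

open Module Pool.Agent.H330 Pool.Agent.H330.Short

section Probability

/-- `S` is a uniform dominating set: a total dominating set of pairwise conjugate elements. -/
def IsUDS {G : Type} [Group G] (S : Set G) : Prop := IsTDS S ∧ ∀ a ∈ S, ∀ b ∈ S, IsConj a b

/-- `P(G, s, c)`: the proportion of the `c`-tuples of conjugates of `s` whose entries form a
uniform dominating set. -/
noncomputable def prob (G : Type) [Group G] (s : G) (c : ℕ) : ℝ :=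
  Nat.card {x : Fin c → G // (∀ i, IsConj s (x i)) ∧ IsUDS (Set.range x)} /
    Nat.card {y : G // IsConj s y} ^ c

/-- `P_c(G) = max_s P(G, s, c)`. -/
noncomputable def probMax (G : Type) [Group G] (c : ℕ) : ℝ := ⨆ s : G, prob G s c

end Probability

section Symplectic

variable {F V : Type} [Field F] [AddCommGroup V] [Module F V]

/-- `B` is an alternating nondegenerate bilinear form. -/
def IsSymplectic (B : V →ₗ[F] V →ₗ[F] F) : Prop :=
  (∀ x, B x x = 0) ∧ ∀ x, (∀ y, B x y = 0) → x = 0

/-- `g` preserves `B`. -/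
def IsIsom (B : V →ₗ[F] V →ₗ[F] F) (g : LinAut F V) : Prop :=
  ∀ x y : V, B (act g x) (act g y) = B x y

theorem isom_mul (B : V →ₗ[F] V →ₗ[F] F) {a b : LinAut F V} (ha : IsIsom B a) (hb : IsIsom B b) :
    IsIsom B (a * b) :=
  (P2.SpB B).mul_mem ha hb

theorem isom_one (B : V →ₗ[F] V →ₗ[F] F) : IsIsom B 1 := (P2.SpB B).one_mem

theorem isom_inv (B : V →ₗ[F] V →ₗ[F] F) {a : LinAut F V} (ha : IsIsom B a) : IsIsom B a⁻¹ :=
  (P2.SpB B).inv_mem ha

/-- The isometry group `Sp(V)`. -/
def Sp (B : V →ₗ[F] V →ₗ[F] F) : Subgroup (LinAut F V) :=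
  ⟨⟨⟨{g | IsIsom B g}, isom_mul B⟩, isom_one B⟩, isom_inv B⟩

/-- `PSp(V) = Sp(V)/scalars`. -/
def PSp (B : V →ₗ[F] V →ₗ[F] F) : Type := P (Sp B)

/-- The group structure of `PSp(V)`. -/
instance groupPSp (B : V →ₗ[F] V →ₗ[F] F) : Group (PSp B) := projGroup (Sp B)

/-- The image in `PSp(V)` of an element of `Sp(V)`. -/
def toPSp (B : V →ₗ[F] V →ₗ[F] F) (t : Sp B) : PSp B := proj (Sp B) t

end Symplectic

section Singer

variable (F K : Type) [Field F] [Fintype F] [Field K] [Fintype K] [Algebra F K] (m : ℕ) (lam : K)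

/-- The bilinear form `(x, y) ↦ Tr_{K/F}(lam * x * y^(q^m))` on the `F`-space `K`, `q = |F|`. -/
noncomputable def form : K →ₗ[F] K →ₗ[F] F :=
  LinearMap.mk₂ F (fun x y => Algebra.trace F K (lam * x * y ^ (Fintype.card F ^ m)))
    (Symp.bil F K m lam).map_add₂ (Symp.bil F K m lam).map_smul₂
    (fun x => (Symp.bil F K m lam x).map_add) (fun c x => (Symp.bil F K m lam x).map_smul c)

/-- The algebra of the multiplications of `V = K` by the elements of the intermediate field
`L`. -/
def fieldAlg (L : IntermediateField F K) : Subalgebra F (Module.End F K) :=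
  L.toSubalgebra.map (Algebra.lmul F K)

/-- The image in `PSp(V)` of the normaliser in `Sp(V)` of the algebra of the multiplications by
elements of `L`. -/
noncomputable def H (L : IntermediateField F K) : Subgroup (PSp (form F K m lam)) :=
  PNorm (Sp (form F K m lam)) (fieldAlg F K L)

/-- The set of the subgroups `H L`, where `L` is a subfield of `K` of prime degree over `F`. -/
noncomputable def overgroups : Set (Subgroup (PSp (form F K m lam))) :=
  {A | ∃ L : IntermediateField F K, (finrank F L).Prime ∧ A = H F K m lam L}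

end Singer

/-- **Main result.**
(A) Let `B` be a nondegenerate alternating form on an `F`-space `V` of dimension `2m`, `|F|` odd,
`m ≥ 3` odd.  Then `P(G, s, 2) ≤ 6/m` for all `s ∈ G = PSp(V)`, so `P_2(G) ≤ 6/m`, and if
`γ_u(G) = 2` then `P_2(G) > 0`.
(B) Let `m ≥ 5` be odd, `q = |F|` odd, `(m, q) ≠ (5, 3)`, `[K : F] = 2m`, `lam ∈ K` nonzero with
`lam^(q^m) = -lam`.  Then the form `Tr_{K/F}(lam x y^(q^m))` on `V = K` is nondegenerate and
alternating, and if `s ≠ 1` is an element of `G = PSp(V)` each of whose maximal overgroups is the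
normaliser of a subfield of `K` of prime degree over `F` (by Bereczky's theorem this holds for
Singer cycles), then `γ_u(G) = 2` and `0 < P_2(G) ≤ 6/m`. -/
theorem result :
    (∀ (F V : Type) [Field F] [Fintype F] [AddCommGroup V] [Module F V] [Finite V]
      (B : V →ₗ[F] V →ₗ[F] F) (m : ℕ), Odd (Fintype.card F) → Odd m → 3 ≤ m →
      finrank F V = 2 * m → IsSymplectic B →
      (∀ s : PSp B, prob (PSp B) s 2 ≤ 6 / m) ∧ probMax (PSp B) 2 ≤ 6 / m ∧
      (gammaU (PSp B) = 2 → 0 < probMax (PSp B) 2)) ∧
    (∀ (F K : Type) [Field F] [Fintype F] [Field K] [Fintype K] [Algebra F K] (m : ℕ) (lam : K),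
      Odd (Fintype.card F) → Odd m → 5 ≤ m → ¬ (m = 5 ∧ Fintype.card F = 3) →
      finrank F K = 2 * m → lam ≠ 0 → lam ^ (Fintype.card F ^ m) = -lam →
      IsSymplectic (form F K m lam) ∧
      ∀ s : PSp (form F K m lam), s ≠ 1 →
        (∀ M : Subgroup (PSp (form F K m lam)), IsCoatom M → s ∈ M → M ∈ overgroups F K m lam) →
        gammaU (PSp (form F K m lam)) = 2 ∧ 0 < probMax (PSp (form F K m lam)) 2 ∧
        probMax (PSp (form F K m lam)) 2 ≤ 6 / m) := by
  have hF : P2.S_FIN := P2.a_FIN
  have hG : P2.S_GRP := P2.a_GRP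
  have key : ∀ (F V : Type) [Field F] [Fintype F] [AddCommGroup V] [Module F V] [Finite V]
      (B : V →ₗ[F] V →ₗ[F] F) (m : ℕ), Odd (Fintype.card F) → Odd m → 3 ≤ m →
      finrank F V = 2 * m → IsSymplectic B →
      (∀ s : PSp B, prob (PSp B) s 2 ≤ 6 / m) ∧ probMax (PSp B) 2 ≤ 6 / m ∧
      (gammaU (PSp B) = 2 → 0 < probMax (PSp B) 2) := by
    intro F V _ _ _ _ _ B m hq hm hm3 hV hB
    have hB' : P2.Sy B := ⟨hB.1, hB.2⟩
    refine ⟨fun s => P2.final_prob hF hG hB' hq hm hm3 hV s, P2.final_max hF hG hB' hq hm hm3 hV, ?_⟩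
    have : Finite (PSp B) := P2.finite_quot B
    intro h
    exact P2.probMax_pos h
  refine ⟨key, ?_⟩
  intro F K _ _ _ _ _ m lam hq hmo hm5 hex hm hl0 hl
  have hl' : Minus.bar F K m lam = -lam := by rw [Minus.bar_apply, hl]
  obtain ⟨h1, -, -, -, h6⟩ := Count.resultC hq hm hmo hm5 hex hl' hl0
  have hS : IsSymplectic (form F K m lam) := h1
  refine ⟨hS, ?_⟩
  intro s hs1 hs
  obtain ⟨k1, k2, k3⟩ := key F K (form F K m lam) m hq hmo (by omega) hm hS
  have h7 : UniformPair (overgroups F K m lam) := h6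
  have h8 := (h7 s hs1 hs).2
  exact ⟨h8, k3 h8, k2⟩

end Pool.Agent.Results.MP_971469_al.OddSymplectic
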